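import Mathlib

/-!
# Packet K-T3 of MP_315210_al: the purely algebraic part
-/

set_option autoImplicit false

namespace Pool.Agent.Helper79.Kos

theorem core_comm {R : Type*} [CommRing R] [Algebra ℚ R] (P : R) (G : ℕ → R) (T : ℕ → ℕ → R)
    (σ : ℕ → R) (R0 : G 0 = P)
    (R2 : ∀ i j, T (i + 1) j + T i (j + 1) = -(P * T i j + T i j * P))
    (R3 : ∀ j, G (j + 1) = -(P * G j + G j * P) + T 0 j)
    (R4 : ∀ i j, G i * T 0 j - T 0 i * G j = T i j * P + T i (j + 1))
    (n : ℕ) (hG : G (n + 1) = 0) (hT : ∀ i, T i (n + 1) = 0)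
    (σ0 : σ 0 = 1) (σs : ∀ m, σ (m + 1) = P * σ m + (-1) ^ m * G m) (hσ : σ (n + 1) = 0) :
    T n n = 0 := by
  have h1 : ∀ j, T (j + 1) n = -2 * P * T j n := by
    intro j
    linear_combination R2 j n - hT j
  have h2 : ∀ j, 2 * G j * G n = T j n := by
    intro j
    induction j with
    | zero =>
      rw [R0]
      linear_combination R3 n - hG
    | succ i ih =>
      have h3 : T 0 i * G n = 0 := by
        have h4 : G 0 * G n * 2 = T 0 n := by
          rw [R0]
          linear_combination R3 n - hG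
        have h5 := R4 i n
        rw [hT i, ← h4, R0] at h5
        linear_combination P * ih - h5
      rw [R3 i, h1 i]
      linear_combination (-2 * P) * ih + 2 * h3
  have h3 : ∀ m, 2 * σ (m + 1) * G n = 2 * (-1) ^ m * T m n := by
    intro m
    induction m with
    | zero =>
      rw [σs 0, σ0, R0]
      have h4 := h2 0
      rw [R0] at h4
      linear_combination 2 * h4
    | succ m ih =>
      rw [σs (m + 1)]
      have h4 := h2 (m + 1)
      have h5 := h1 m
      linear_combination P * ih + (-1) ^ (m + 1) * h4 + (-1) ^ m * h5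
  have h4 := h3 n
  rw [hσ, mul_zero, zero_mul] at h4
  have h5 : ((-1 : R) ^ n) * (-1) ^ n = 1 := by
    rw [← mul_pow]
    simp
  have h6 : T n n * 2 = 0 := by
    linear_combination (-((-1 : R) ^ n)) * h4 - 2 * T n n * h5
  have h7 : (2 : ℚ) • T n n = 0 := by
    rw [Algebra.smul_def, map_ofNat, mul_comm]
    exact h6
  exact (smul_eq_zero.1 h7).resolve_left (by norm_num)

theorem core {R : Type*} [Ring R] [Algebra ℚ R] (P : R) (G : ℕ → R) (T : ℕ → ℕ → R)
    (σ : ℕ → R) (R0 : G 0 = P) (R1 : ∀ i j, T i j = T j i)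
    (R2 : ∀ i j, T (i + 1) j + T i (j + 1) = -(P * T i j + T i j * P))
    (R3 : ∀ j, G (j + 1) = -(P * G j + G j * P) + T 0 j)
    (R4 : ∀ i j, G i * T 0 j - T 0 i * G j = T i j * P + T i (j + 1))
    (n : ℕ) (hG : G (n + 1) = 0) (hT : ∀ i, T i (n + 1) = 0)
    (σ0 : σ 0 = 1) (σs : ∀ m, σ (m + 1) = P * σ m + (-1) ^ m * G m) (hσ : σ (n + 1) = 0) :
    T n n = 0 := by
  set Q := T 0 0 with hQ
  have hPQ : P * Q = Q * P := by
    have h1 := R4 0 0
    have h2 := R2 0 0
    rw [R1 1 0, R0] at *
    rw [← hQ] at h1 h2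
    have h3 : (3 : ℚ) • (P * Q - Q * P) = 0 := by
      linear_combination (norm := module) (2 : ℚ) • h1 + (1 : ℚ) • h2
    have h4 := (smul_eq_zero.1 h3).resolve_left (by norm_num)
    exact sub_eq_zero.1 h4
  have hmc := Algebra.isMulCommutative_adjoin ℚ (s := ({P, Q} : Set R)) (by
    intro x hx y hy
    rcases hx with rfl | hx <;> rcases hy with rfl | hy
    · rfl
    · rw [Set.mem_singleton_iff] at hy; subst hy; exact hPQ
    · rw [Set.mem_singleton_iff] at hx; subst hx; exact hPQ.symm
    · rw [Set.mem_singleton_iff] at hx hy; rw [hx, hy])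
  set S := Algebra.adjoin ℚ ({P, Q} : Set R) with hS
  have hc : ∀ x ∈ S, ∀ y ∈ S, x * y = y * x := by
    intro x hx y hy
    exact setLike_mul_comm hx hy
  have hP : P ∈ S := Algebra.subset_adjoin (by simp)
  have hQS : Q ∈ S := Algebra.subset_adjoin (by simp)
  have hGT : ∀ j, G j ∈ S ∧ T 0 j ∈ S := by
    intro j
    induction j with
    | zero => exact ⟨R0 ▸ hP, hQS⟩
    | succ j ih =>
      obtain ⟨h1, h2⟩ := ih
      refine ⟨?_, ?_⟩
      · rw [R3 j]
        exact S.add_mem (S.neg_mem (S.add_mem (S.mul_mem hP h1) (S.mul_mem h1 hP))) h2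
      · have h3 := R4 0 j
        rw [R0, hc P hP _ h2] at h3
        have h4 : T 0 (j + 1) = -(T 0 0 * G j) := by
          linear_combination (norm := noncomm_ring) -h3
        rw [h4]
        exact S.neg_mem (S.mul_mem hQS h1)
  have hTS : ∀ i j, T i j ∈ S := by
    intro i
    induction i with
    | zero => exact fun j => (hGT j).2
    | succ i ih =>
      intro j
      have h1 : T (i + 1) j = -(P * T i j) - (G i * T 0 j - T 0 i * G j) := by
        linear_combination (norm := noncomm_ring) R2 i j + R4 i j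
      rw [h1]
      exact S.sub_mem (S.neg_mem (S.mul_mem hP (ih j)))
        (S.sub_mem (S.mul_mem (hGT i).1 (hGT j).2) (S.mul_mem (hGT i).2 (hGT j).1))
  have hσS : ∀ m, σ m ∈ S := by
    intro m
    induction m with
    | zero => rw [σ0]; exact S.one_mem
    | succ m ih =>
      rw [σs m]
      exact S.add_mem (S.mul_mem hP ih)
        (S.mul_mem (S.pow_mem (S.neg_mem S.one_mem) m) (hGT m).1)
  let _ : CommRing S := { (inferInstance : Ring S) with
    mul_comm := fun a b => Subtype.ext (hc a a.2 b b.2) }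
  have key := core_comm (R := S) ⟨P, hP⟩ (fun j => ⟨G j, (hGT j).1⟩) (fun i j => ⟨T i j, hTS i j⟩)
    (fun m => ⟨σ m, hσS m⟩) (Subtype.ext R0) (fun i j => Subtype.ext (R2 i j))
    (fun j => Subtype.ext (R3 j)) (fun i j => Subtype.ext (R4 i j)) n (Subtype.ext hG)
    (fun i => Subtype.ext (hT i)) (Subtype.ext σ0) (fun m => Subtype.ext (σs m)) (Subtype.ext hσ)
  exact congrArg Subtype.val key

end Pool.Agent.Helper79.Kos
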