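import Pool.Agent.Helper84.Kos.Goals
import Pool.Agent.Helper79.Kos.Core

/-!
# Packet K-T3 of MP_315210_al: from `ad(a)^3 = 0` to a sandwich
-/

set_option autoImplicit false

namespace Pool.Agent.Helper79.Kos

open LieAlgebra Pool.Agent.Helper84.Kos

section Gen

variable {L : Type} [LieRing L] [LieAlgebra ℚ L]

theorem ad_br (x y : L) :
    ad ℚ L ⁅x, y⁆ = ad ℚ L x * ad ℚ L y - ad ℚ L y * ad ℚ L x := by
  refine LinearMap.ext fun z => ?_
  change ⁅⁅x, y⁆, z⁆ = ⁅x, ⁅y, z⁆⁆ - ⁅y, ⁅x, z⁆⁆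
  exact lie_lie x y z

theorem neg_one_pow_mul {R : Type*} [Ring R] [Algebra ℚ R] (m : ℕ) (g : R) :
    (-1 : R) ^ m * g = (-1 : ℚ) ^ m • g := by
  rw [Algebra.smul_def, map_pow, map_neg, map_one]

theorem three {V : Type*} [AddCommGroup V] [Module ℚ V] {X : V} (h : X + X + X = 0) : X = 0 := by
  have h1 : X = (1 / 3 : ℚ) • (X + X + X) := by module
  rw [h1, h, smul_zero]

theorem id_a {a : L} (hA : ad ℚ L a * ad ℚ L a * ad ℚ L a = 0) (y : L) :
    ad ℚ L a * ad ℚ L a * ad ℚ L y * ad ℚ L a = ad ℚ L a * ad ℚ L y * ad ℚ L a * ad ℚ L a := by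
  have h0 : ⁅a, ⁅a, ⁅a, y⁆⁆⁆ = 0 := by
    have := congrArg (fun f : Module.End ℚ L => f y) hA
    simpa using this
  have h1 : ad ℚ L ⁅a, ⁅a, ⁅a, y⁆⁆⁆ = 0 := by rw [h0, map_zero]
  rw [ad_br, ad_br, ad_br] at h1
  set A := ad ℚ L a
  set Y := ad ℚ L y
  have h2 : A * Y * A * A - A * A * Y * A = 0 := by
    apply three
    calc _ = (A * (A * (A * Y - Y * A) - (A * Y - Y * A) * A) -
          (A * (A * Y - Y * A) - (A * Y - Y * A) * A) * A) - (A * A * A) * Y + Y * (A * A * A) := by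
          noncomm_ring
      _ = 0 := by rw [h1, hA]; simp
  exact (sub_eq_zero.1 h2).symm

theorem id_b {a : L} (hA : ad ℚ L a * ad ℚ L a * ad ℚ L a = 0) (y : L) :
    ad ℚ L a * ad ℚ L a * ad ℚ L y * ad ℚ L a * ad ℚ L a = 0 := by
  rw [id_a hA y]
  linear_combination (norm := noncomm_ring) (ad ℚ L a * ad ℚ L y) * hA

theorem id_c (a y : L) : ad ℚ L ⁅a, ⁅a, y⁆⁆ = ad ℚ L a * ad ℚ L a * ad ℚ L y -
    2 * (ad ℚ L a * ad ℚ L y * ad ℚ L a) + ad ℚ L y * ad ℚ L a * ad ℚ L a := by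
  rw [ad_br, ad_br]
  noncomm_ring

theorem id_d {a : L} (hA : ad ℚ L a * ad ℚ L a * ad ℚ L a = 0) (y z : L) :
    ad ℚ L ⁅a, ⁅a, y⁆⁆ * ad ℚ L ⁅a, ⁅a, z⁆⁆ =
      ad ℚ L a * ad ℚ L a * ad ℚ L y * ad ℚ L z * (ad ℚ L a * ad ℚ L a) := by
  rw [id_c, id_c]
  have h1 := id_a hA y
  have h2 := id_a hA z
  have h3 := id_b hA y
  have h4 := id_b hA z
  set A := ad ℚ L a
  set Y := ad ℚ L y
  set Z := ad ℚ L z
  linear_combination (norm := noncomm_ring) h3 * Z + Y * h4 - 2 * (A * Y) * hA * Z +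
    Y * hA * (A * Z) - 2 * Y * hA * (Z * A) - 2 * h1 * (Z * A) + 2 * (A * Y) * h2

theorem id_sym {a : L} (hA : ad ℚ L a * ad ℚ L a * ad ℚ L a = 0) (y z : L) :
    ad ℚ L a * ad ℚ L a * ad ℚ L y * ad ℚ L z * (ad ℚ L a * ad ℚ L a) =
      ad ℚ L a * ad ℚ L a * ad ℚ L z * ad ℚ L y * (ad ℚ L a * ad ℚ L a) := by
  have h1 := id_b hA ⁅y, z⁆
  rw [ad_br] at h1
  linear_combination (norm := noncomm_ring) h1

theorem id_J {a : L} (hA : ad ℚ L a * ad ℚ L a * ad ℚ L a = 0) (z : L) :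
    ad ℚ L a * ad ℚ L a * ad ℚ L ⁅a, z⁆ = -(ad ℚ L ⁅a, z⁆ * (ad ℚ L a * ad ℚ L a)) := by
  have h1 := id_a hA z
  rw [ad_br]
  linear_combination (norm := noncomm_ring) hA * ad ℚ L z - h1 - ad ℚ L z * hA

/-- `f` represents the operator `F` on the submodule `M`. -/
def Rep {M : Submodule ℚ L} (f : Module.End ℚ M) (F : Module.End ℚ L) : Prop :=
  ∀ m : M, (f m : L) = F m

theorem Rep.mul {M : Submodule ℚ L} {f g : Module.End ℚ M} {F G : Module.End ℚ L}
    (hf : Rep f F) (hg : Rep g G) : Rep (f * g) (F * G) := by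
  intro m
  rw [Module.End.mul_apply, Module.End.mul_apply, hf, hg]

theorem Rep.add {M : Submodule ℚ L} {f g : Module.End ℚ M} {F G : Module.End ℚ L}
    (hf : Rep f F) (hg : Rep g G) : Rep (f + g) (F + G) := by
  intro m
  rw [LinearMap.add_apply, LinearMap.add_apply, Submodule.coe_add, hf, hg]

theorem Rep.sub {M : Submodule ℚ L} {f g : Module.End ℚ M} {F G : Module.End ℚ L}
    (hf : Rep f F) (hg : Rep g G) : Rep (f - g) (F - G) := by
  intro m
  rw [LinearMap.sub_apply, LinearMap.sub_apply, Submodule.coe_sub, hf, hg]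

theorem Rep.neg {M : Submodule ℚ L} {f : Module.End ℚ M} {F : Module.End ℚ L}
    (hf : Rep f F) : Rep (-f) (-F) := by
  intro m
  rw [LinearMap.neg_apply, LinearMap.neg_apply, Submodule.coe_neg, hf]

theorem eq_of_rep {J : Module.End ℚ L} {f g : Module.End ℚ (LinearMap.range J)}
    {F G : Module.End ℚ L} (hf : Rep f F) (hg : Rep g G) (h : F * J = G * J) : f = g := by
  refine LinearMap.ext fun m => Subtype.ext ?_
  rw [hf, hg]
  obtain ⟨_, v, rfl⟩ := m
  exact congrArg (fun k : Module.End ℚ L => k v) h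

theorem exists_rep {J : Module.End ℚ L} (F F' : Module.End ℚ L) (h : F * J = J * F') :
    ∃ f : Module.End ℚ (LinearMap.range J), Rep f F := by
  refine ⟨F.restrict (p := LinearMap.range J) (q := LinearMap.range J) ?_, fun m => rfl⟩
  rintro _ ⟨v, rfl⟩
  exact ⟨F' v, (congrArg (fun k : Module.End ℚ L => k v) h).symm⟩

end Gen

open Polynomial in
/-- Linearisation. -/
theorem lin_coeff {V : Type*} [AddCommGroup V] [Module ℚ V] (H K : Module.End ℚ V) (u v : V)
    (E : ℕ → V) (E0 : E 0 = v) (Es : ∀ m, E (m + 1) = H (E m) + K ((H ^ m) u)) (N : ℕ)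
    (h : ∀ t : ℚ, ((H + t • K) ^ N) (u + t • v) = 0) : E N = 0 := by
  have key : ∀ m, ∀ φ : Module.Dual ℚ V, ∃ p : ℚ[X], p.coeff 0 = φ ((H ^ m) u) ∧
      p.coeff 1 = φ (E m) ∧ ∀ t : ℚ, p.eval t = φ (((H + t • K) ^ m) (u + t • v)) := by
    intro m
    induction m with
    | zero =>
      intro φ
      refine ⟨C (φ u) + C (φ v) * X, ?_, ?_, ?_⟩
      · rw [coeff_add, coeff_C_zero, mul_coeff_zero, coeff_X_zero, mul_zero, add_zero]
        rfl
      · rw [coeff_add, coeff_C_of_ne_zero one_ne_zero, coeff_C_mul, coeff_X_one, mul_one, zero_add, E0]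
      · intro t
        have h1 : ((H + t • K) ^ 0) (u + t • v) = u + t • v := rfl
        rw [h1, map_add φ, map_smul φ, eval_add, eval_mul, eval_C, eval_C, eval_X, smul_eq_mul,
          mul_comm t]
    | succ m ih =>
      intro φ
      obtain ⟨p, hp0, hp1, hp⟩ := ih (φ.comp H)
      obtain ⟨q, hq0, hq1, hq⟩ := ih (φ.comp K)
      refine ⟨p + q * X, ?_, ?_, ?_⟩
      · rw [coeff_add, mul_coeff_zero, coeff_X_zero, mul_zero, add_zero, hp0, pow_succ']
        rfl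
      · rw [coeff_add, hp1, Es, map_add]
        have h1 : (q * X).coeff 1 = q.coeff 0 := coeff_mul_X q 0
        rw [h1, hq0]
        rfl
      · intro t
        have h1 : ((H + t • K) ^ (m + 1)) (u + t • v) = H (((H + t • K) ^ m) (u + t • v)) +
            t • K (((H + t • K) ^ m) (u + t • v)) := by
          rw [pow_succ']
          rfl
        rw [eval_add, eval_mul, eval_X, hp, hq, h1, map_add φ, map_smul φ, smul_eq_mul,
          mul_comm t]
        rfl
  rw [← Module.forall_dual_apply_eq_zero_iff ℚ]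
  intro φ
  obtain ⟨p, -, hp1, hp⟩ := key N φ
  have h1 : p = 0 := by
    refine Polynomial.funext fun t => ?_
    rw [hp, h t, map_zero, eval_zero]
  rw [← hp1, h1, coeff_zero]

theorem stmtT3 : StmtT3 := by
  classical
  intro L _ _ k hk a ha hA3
  set A := ad ℚ L a with hAdef
  have hA : ad ℚ L a * ad ℚ L a * ad ℚ L a = 0 := by
    rw [← hA3, hAdef, pow_succ, pow_two]
  by_cases hA2 : ad ℚ L a * ad ℚ L a = 0
  · exact ⟨a, ha, by rw [pow_two, hA2]⟩
  -- the minimal exponent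
  have hex : ∃ N : ℕ, ∀ x : L, ((ad ℚ L ⁅a, x⁆) ^ N) ⁅a, ⁅a, x⁆⁆ = 0 := ⟨k, fun x => by
    rw [hk]; rfl⟩
  obtain ⟨N, hN, hmin⟩ : ∃ N : ℕ, (∀ x : L, ((ad ℚ L ⁅a, x⁆) ^ N) ⁅a, ⁅a, x⁆⁆ = 0) ∧
      ∀ m < N, ¬ ∀ x : L, ((ad ℚ L ⁅a, x⁆) ^ m) ⁅a, ⁅a, x⁆⁆ = 0 :=
    ⟨Nat.find hex, Nat.find_spec hex, fun m hm => Nat.find_min hex hm⟩
  have hN0 : N ≠ 0 := by
    rintro rfl
    apply hA2
    refine LinearMap.ext fun x => ?_
    have := hN x
    simpa using this
  obtain ⟨n, rfl⟩ := Nat.exists_eq_succ_of_ne_zero hN0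
  have hex2 := hmin n (Nat.lt_succ_self n)
  push Not at hex2
  obtain ⟨x, hx⟩ := hex2
  set H := ad ℚ L ⁅a, x⁆ with hH
  have hHx : H = A * ad ℚ L x - ad ℚ L x * A := ad_br a x
  set y : ℕ → L := fun j => (H ^ j) x with hy
  have hy0 : y 0 = x := by simp [hy]
  have hys : ∀ j, y (j + 1) = ⁅⁅a, x⁆, y j⁆ := by
    intro j
    simp only [hy]
    rw [pow_succ', Module.End.mul_apply, hH, ad_apply]
  have hYs : ∀ j, ad ℚ L (y (j + 1)) = H * ad ℚ L (y j) - ad ℚ L (y j) * H := by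
    intro j
    rw [hys, ad_br]
  set J := A * A with hJ
  have hJH : J * H = -(H * J) := id_J hA x
  have hJy : ∀ j, J (y j) = (-1 : ℚ) ^ j • (H ^ j) (J x) := by
    intro j
    induction j with
    | zero => simp [hy0]
    | succ j ih =>
      have h1 : y (j + 1) = H (y j) := by rw [hys, hH, ad_apply]
      have h2 : J (H (y j)) = -(H (J (y j))) := by
        have := congrArg (fun f : Module.End ℚ L => f (y j)) hJH
        simpa using this
      rw [h1, h2, ih, map_smul, pow_succ' H, Module.End.mul_apply, pow_succ (-1 : ℚ)]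
      module
  have hJx : J x = ⁅a, ⁅a, x⁆⁆ := rfl
  have hyn1 : J (y (n + 1)) = 0 := by
    rw [hJy, hJx, hN x, smul_zero]
  have hyn : J (y n) ≠ 0 := by
    rw [hJy, hJx]
    refine smul_ne_zero (pow_ne_zero _ (by norm_num)) hx
  -- the operators on the range of `J`
  obtain ⟨P, hP⟩ := exists_rep (J := J) H (-H) (by rw [mul_neg, hJH, neg_neg])
  have hGex : ∀ j, ∃ f : Module.End ℚ (LinearMap.range J), Rep f (A * ad ℚ L (y j)) := by
    intro j
    refine exists_rep _ (ad ℚ L (y j) * A) ?_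
    have := id_a hA (y j)
    rw [hJ]
    linear_combination (norm := noncomm_ring) -this
  choose G hG using hGex
  have hTex : ∀ i j, ∃ f : Module.End ℚ (LinearMap.range J),
      Rep f (J * ad ℚ L (y i) * ad ℚ L (y j)) := by
    intro i j
    refine exists_rep _ (ad ℚ L (y i) * ad ℚ L (y j) * J) ?_
    noncomm_ring
  choose T hT using hTex
  let σ : ℕ → Module.End ℚ (LinearMap.range J) := fun m =>
    Nat.rec 1 (fun m s => P * s + (-1) ^ m * G m) m
  have σ0 : σ 0 = 1 := rfl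
  have σs : ∀ m, σ (m + 1) = P * σ m + (-1) ^ m * G m := fun m => rfl
  have R0 : G 0 = P := by
    refine eq_of_rep (hG 0) hP ?_
    have hA' : A * A * A = 0 := hA
    rw [hy0, hHx, hJ]
    linear_combination (norm := noncomm_ring) ad ℚ L x * hA'
  have R1 : ∀ i j, T i j = T j i := by
    intro i j
    refine eq_of_rep (hT i j) (hT j i) ?_
    exact id_sym hA (y i) (y j)
  have R2 : ∀ i j, T (i + 1) j + T i (j + 1) = -(P * T i j + T i j * P) := by
    intro i j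
    refine eq_of_rep ((hT (i + 1) j).add (hT i (j + 1)))
      (((hP.mul (hT i j)).add ((hT i j).mul hP)).neg) ?_
    rw [hYs i, hYs j]
    linear_combination (norm := noncomm_ring) hJH * (ad ℚ L (y i) * ad ℚ L (y j) * J)
  have R3 : ∀ j, G (j + 1) = -(P * G j + G j * P) + T 0 j := by
    intro j
    refine eq_of_rep (hG (j + 1))
      ((((hP.mul (hG j)).add ((hG j).mul hP)).neg).add (hT 0 j)) ?_
    have h1 := id_b hA (y j)
    rw [hYs j, hy0, hHx, hJ]
    linear_combination (norm := noncomm_ring) -(ad ℚ L x) * h1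
  have R4 : ∀ i j, G i * T 0 j - T 0 i * G j = T i j * P + T i (j + 1) := by
    intro i j
    refine eq_of_rep (((hG i).mul (hT 0 j)).sub ((hT 0 i).mul (hG j)))
      (((hT i j).mul hP).add (hT i (j + 1))) ?_
    have h1 := id_a hA (y i)
    have h2 := id_a hA (y j)
    have h3 := id_sym hA (y i) x
    rw [hYs j, hy0, hHx, hJ]
    set X := ad ℚ L x
    set Yi := ad ℚ L (y i)
    set Yj := ad ℚ L (y j)
    linear_combination (norm := noncomm_ring) -h1 * (X * Yj * (A * A)) +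
      (A * A * X * Yi - A * A * Yi * X) * h2 + h3 * (Yj * A)
  have hGn : G (n + 1) = 0 := by
    refine eq_of_rep (J := J) (F := A * ad ℚ L (y (n + 1))) (G := 0) (hG (n + 1))
      (fun m => rfl) ?_
    have h1 : ad ℚ L ⁅a, ⁅a, y (n + 1)⁆⁆ = 0 := by
      have : ⁅a, ⁅a, y (n + 1)⁆⁆ = 0 := hyn1
      rw [this, map_zero]
    rw [id_c] at h1
    have h1' : A * A * ad ℚ L (y (n + 1)) - 2 * (A * ad ℚ L (y (n + 1)) * A) +
      ad ℚ L (y (n + 1)) * A * A = 0 := h1
    have h2 : A * A * ad ℚ L (y (n + 1)) * A = A * ad ℚ L (y (n + 1)) * A * A :=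
      id_a hA (y (n + 1))
    have hA' : A * A * A = 0 := hA
    rw [hJ]
    linear_combination (norm := noncomm_ring) -h1' * A + h2 + ad ℚ L (y (n + 1)) * hA'
  have hTn : ∀ i, T i (n + 1) = 0 := by
    intro i
    refine eq_of_rep (J := J) (F := J * ad ℚ L (y i) * ad ℚ L (y (n + 1))) (G := 0) (hT i (n + 1))
      (fun m => rfl) ?_
    have h1 : ad ℚ L ⁅a, ⁅a, y (n + 1)⁆⁆ = 0 := by
      have : ⁅a, ⁅a, y (n + 1)⁆⁆ = 0 := hyn1
      rw [this, map_zero]
    have h2 := id_d hA (y i) (y (n + 1))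
    rw [h1, mul_zero] at h2
    rw [zero_mul]
    exact h2.symm
  have hσ : σ (n + 1) = 0 := by
    refine LinearMap.ext fun m => Subtype.ext ?_
    obtain ⟨_, z, rfl⟩ := m
    change ((σ (n + 1)) ⟨J z, z, rfl⟩ : L) = 0
    refine lin_coeff H (ad ℚ L ⁅a, z⁆) (J x) (J z) (fun m => ((σ m) ⟨J z, z, rfl⟩ : L)) rfl ?_
      (n + 1) ?_
    · intro m
      simp only [σs]
      rw [LinearMap.add_apply, Submodule.coe_add, Module.End.mul_apply, hP]
      congr 1
      have h1 : (((-1 : Module.End ℚ (LinearMap.range J)) ^ m * G m) ⟨J z, z, rfl⟩ : L) =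
          (-1 : ℚ) ^ m • ((A * ad ℚ L (y m)) (J z)) := by
        have h2 : ((-1 : Module.End ℚ (LinearMap.range J)) ^ m * G m) =
            (-1 : ℚ) ^ m • G m := neg_one_pow_mul m (G m)
        rw [h2, LinearMap.smul_apply, Submodule.coe_smul, hG m]
      have h3 : (H ^ m) (J x) = (-1 : ℚ) ^ m • J (y m) := by
        rw [hJy m, smul_smul, ← mul_pow]
        simp
      rw [h1, h3, map_smul]
      congr 1
      -- `K (J y) = A Y A A z`
      have h4 := congrArg (fun f : Module.End ℚ L => f (y m)) (id_J hA z)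
      have h5 := congrArg (fun f : Module.End ℚ L => f z) (id_a hA (y m))
      have h6 : (A * ad ℚ L (y m)) (J z) = ⁅a, ⁅a, ⁅y m, ⁅a, z⁆⁆⁆⁆ := h5.symm
      have h7 : ⁅a, ⁅a, ⁅⁅a, z⁆, y m⁆⁆⁆ = -(ad ℚ L ⁅a, z⁆ (J (y m))) := h4
      rw [h6, ← lie_skew (y m) ⁅a, z⁆, lie_neg, lie_neg, h7, neg_neg]
    · intro t
      have h1 := hN (x + t • z)
      have h2 : ad ℚ L ⁅a, x + t • z⁆ = H + t • ad ℚ L ⁅a, z⁆ := by
        rw [lie_add, lie_smul, map_add, map_smul]
      have h3 : ⁅a, ⁅a, x + t • z⁆⁆ = J x + t • J z := by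
        rw [lie_add, lie_smul, lie_add, lie_smul]
        rfl
      rw [h2, h3] at h1
      exact h1
  have hTT := core P G T σ R0 R1 R2 R3 R4 n hGn hTn σ0 σs hσ
  refine ⟨⁅a, ⁅a, y n⁆⁆, hyn, ?_⟩
  rw [pow_two, id_d hA]
  refine LinearMap.ext fun v => ?_
  have h1 := hT n n ⟨J v, v, rfl⟩
  rw [hTT] at h1
  exact h1.symm

end Pool.Agent.Helper79.Kos
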